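import Mathlib

set_option autoImplicit false
open Set Filter Topology MeasureTheory
open scoped ContDiff

namespace Pool.Agent.Results.MP_ce9a4f_an.No

variable {k : ℕ}

/-- Squared Euclidean length of the gradient of a function on the boundary hyperplane. -/
noncomputable def gradSq (h : (Fin k → ℝ) → ℝ) (x : Fin k → ℝ) : ℝ := ∑ i, fderiv ℝ h x (Pi.single i 1) ^ 2

/-- Squared Euclidean length of the gradient of a function of `(x', xₙ)`. -/
noncomputable def gradSq' (u : (Fin k → ℝ) × ℝ → ℝ) (p : (Fin k → ℝ) × ℝ) : ℝ :=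
  ∑ i, fderiv ℝ u p (Pi.single i 1, 0) ^ 2 + fderiv ℝ u p (0, 1) ^ 2

/-- The region above the graph of `h`. -/
def Om (h : (Fin k → ℝ) → ℝ) : Set ((Fin k → ℝ) × ℝ) := {p | h p.1 < p.2}

/-- The Robin form on the region above the graph of `h`, with the surface measure of the graph. -/
noncomputable def q (α : ℝ) (h : (Fin k → ℝ) → ℝ) (u : (Fin k → ℝ) × ℝ → ℝ) : ℝ :=
  (∫ p in Om h, gradSq' u p) + α * ∫ x, u (x, h x) ^ 2 * √(1 + gradSq h x)

lemma intD {W : (Fin k → ℝ) × ℝ → ℝ} (h1 : ContDiff ℝ 1 W) (h2 : HasCompactSupport W) (v : (Fin k → ℝ) × ℝ) :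
    Integrable fun p => fderiv ℝ W p v :=
  ((h1.continuous_fderiv one_ne_zero).clm_apply continuous_const).integrable_of_hasCompactSupport
    (h2.fderiv_apply ℝ v)

lemma tang {W : (Fin k → ℝ) × ℝ → ℝ} (h1 : ContDiff ℝ 1 W) (h2 : HasCompactSupport W) (v : Fin k → ℝ) :
    ∫ p in univ ×ˢ Ioi 0, fderiv ℝ W p (v, 0) = 0 := by
  have m : MeasurableSet ((univ : Set (Fin k → ℝ)) ×ˢ Ioi (0 : ℝ)) := .prod .univ measurableSet_Ioi
  have e : ∀ g : (Fin k → ℝ) × ℝ → ℝ, (fun p => ContinuousLinearMap.mul ℝ ℝ ((univ ×ˢ Ioi 0).indicator 1 p) (g p)) =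
      (univ ×ˢ Ioi 0).indicator g := fun g => by
    ext p; by_cases c : p ∈ univ ×ˢ Ioi (0 : ℝ) <;> simp [c]
  have : (volume : Measure ((Fin k → ℝ) × ℝ)).IsAddHaarMeasure := Measure.prod.instIsAddHaarMeasure _ _
  have := integral_bilinear_hasLineDerivAt_right_eq_neg_left_of_integrable (μ := volume) (v := (v, 0))
    (f := (univ ×ˢ Ioi (0 : ℝ)).indicator 1) (f' := 0) (g := W) (g' := fun p => fderiv ℝ W p (v, 0))
    (B := ContinuousLinearMap.mul ℝ ℝ) (by simp) (by rw [e]; exact (intD h1 h2 _).indicator m)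
    (by rw [e]; exact (h1.continuous.integrable_of_hasCompactSupport h2).indicator m)
    (fun p _ => (hasDerivAt_const (0 : ℝ) ((univ ×ˢ Ioi (0 : ℝ)).indicator 1 p)).congr_of_eventuallyEq
      (.of_forall fun t => by simp [indicator]))
    fun p _ => (h1.differentiable one_ne_zero p).hasFDerivAt.hasLineDerivAt _
  rw [e, integral_indicator m] at this
  simpa using this

lemma norm' {W : (Fin k → ℝ) × ℝ → ℝ} (h1 : ContDiff ℝ 1 W) (h2 : HasCompactSupport W) :
    ∫ p in univ ×ˢ Ioi 0, fderiv ℝ W p (0, 1) = -∫ x, W (x, 0) := by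
  rw [Measure.volume_eq_prod, setIntegral_prod _ (intD h1 h2 _).integrableOn, Measure.restrict_univ,
    ← integral_neg]
  congr 1; ext x
  rw [← HasCompactSupport.integral_Ioi_deriv_eq (f := fun s => W (x, s)) (by fun_prop)
    (h2.comp_isClosedEmbedding (Isometry.of_dist_eq fun _ _ => by simp).isClosedEmbedding)]
  congr 1; ext s
  exact (((h1.differentiable one_ne_zero (x, s)).hasFDerivAt.comp_hasDerivAt s
    ((hasDerivAt_const s x).prodMk (hasDerivAt_id s))).deriv).symm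

lemma main {a : ℝ} {h : (Fin k → ℝ) → ℝ} {F : Fin k → (Fin k → ℝ) → ℝ} (hh : ContDiff ℝ 2 h)
    (hF : ∀ i, ContDiff ℝ 1 (F i)) (h1 : ∀ x, ∑ i, fderiv ℝ (F i) x (Pi.single i 1) + ∑ i, F i x ^ 2 ≤ 0)
    (h2 : ∀ x, a * √(1 + gradSq h x) ≤ a + ∑ i, fderiv ℝ h x (Pi.single i 1) * F i x)
    {u : (Fin k → ℝ) × ℝ → ℝ} (u1 : ContDiff ℝ 1 u) (u2 : HasCompactSupport u) :
    -a ^ 2 * ∫ p in Om h, u p ^ 2 ≤ q (-a) h u := by
  let σ : (Fin k → ℝ) × ℝ ≃ₜ (Fin k → ℝ) × ℝ :=
    { toFun := fun p => (p.1, p.2 + h p.1), invFun := fun p => (p.1, p.2 - h p.1), left_inv := by simp [Function.LeftInverse],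
      right_inv := by simp [Function.RightInverse, Function.LeftInverse],
      continuous_toFun := by have := hh.continuous; fun_prop, continuous_invFun := by have := hh.continuous; fun_prop }
  have mp : MeasurePreserving σ := (MeasurePreserving.id volume).skew_product (g := fun x s => s + h x)
    (by have := hh.continuous.measurable; fun_prop) (.of_forall fun x => map_add_right_eq_self _ _)
  have tr : ∀ g : (Fin k → ℝ) × ℝ → ℝ, ∫ p in Om h, g p = ∫ p in univ ×ˢ Ioi 0, g (σ p) := fun g => by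
    rw [← mp.setIntegral_preimage_emb σ.measurableEmbedding]
    congr 2; ext p; simp [Om, σ]
  have hd : ∀ i, ContDiff ℝ 1 fun x => fderiv ℝ h x (Pi.single i 1) := fun i =>
    (hh.fderiv_right (by norm_num)).clm_apply contDiff_const
  have hh1 : ContDiff ℝ 1 h := hh.of_le (by norm_num)
  have v1 : ContDiff ℝ 1 fun p => u (σ p) := u1.comp (f := fun p : (Fin k → ℝ) × ℝ => (p.1, p.2 + h p.1)) (by fun_prop)
  have v2 : HasCompactSupport fun p => u (σ p) := u2.comp_homeomorph σ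
  have v3 : ∀ g : (Fin k → ℝ) × ℝ → ℝ, HasCompactSupport fun p => u (σ p) ^ 2 * g p := fun g =>
    .intro v2 fun p hp => by simp [image_eq_zero_of_notMem_tsupport hp]
  have c1 : ∀ i, ContDiff ℝ 1 fun p => u (σ p) ^ 2 * F i p.1 := fun i =>
    (v1.pow 2).mul ((hF i).comp contDiff_fst)
  have c0 : ContDiff ℝ 1 fun x => -(a + ∑ i, fderiv ℝ h x (Pi.single i 1) * F i x) :=
    (contDiff_const.add (.sum fun i _ => (hd i).mul (hF i))).neg
  have c2 : ContDiff ℝ 1 fun p => u (σ p) ^ 2 * -(a + ∑ i, fderiv ℝ h p.1 (Pi.single i 1) * F i p.1) :=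
    (v1.pow 2).mul (c0.comp contDiff_fst)
  have A := fun i => tang (c1 i) (v3 _) (Pi.single i 1)
  have B := norm' c2 (v3 _)
  have iu : Integrable fun p => u (σ p) ^ 2 := by
    simpa using (v1.pow 2).continuous.integrable_of_hasCompactSupport (by simpa using v3 1)
  have ig : Integrable fun p => gradSq' u (σ p) := (mp.integrable_comp_emb σ.measurableEmbedding (g := gradSq' u)).2 (by
    have := u1.continuous_fderiv one_ne_zero
    refine Continuous.integrable_of_hasCompactSupport (by unfold gradSq'; fun_prop) (.intro u2 fun p hp => ?_)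
    simp [gradSq', image_eq_zero_of_notMem_tsupport fun k => hp (tsupport_fderiv_subset ℝ k)])
  have ib : ∀ g : (Fin k → ℝ) → ℝ, Continuous g → Integrable fun x => u (σ (x, 0)) ^ 2 * g x := fun g hg =>
    Continuous.integrable_of_hasCompactSupport (by have := v1.continuous; fun_prop)
      ((v3 fun p => g p.1).comp_isClosedEmbedding (g := fun x => (x, 0))
        (Isometry.of_dist_eq fun _ _ => by simp).isClosedEmbedding)
  have C := integral_mono (((ib (fun x => √(1 + gradSq h x)) (by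
    have := fun i => (hd i).continuous
    unfold gradSq; fun_prop)).const_mul a)) (ib _ c0.continuous).neg fun x => by
      simp only [Pi.neg_apply]; nlinarith [h2 x, sq_nonneg (u (σ (x, 0)))]
  have D := setIntegral_mono (s := univ ×ˢ Ioi 0) ((integrable_finsetSum Finset.univ fun i _ =>
    intD (c1 i) (v3 _) (Pi.single i 1, 0)).add (intD c2 (v3 _) (0, 1))).integrableOn
    (ig.add (iu.const_mul (a ^ 2))).integrableOn fun p => by
      have d := ((u1.differentiable one_ne_zero (σ p)).hasFDerivAt.comp p (hasFDerivAt_fst.prodMk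
        (hasFDerivAt_snd.add ((hh1.differentiable one_ne_zero p.1).hasFDerivAt.comp p hasFDerivAt_fst)))).pow 2
      have e1 := fun i => (d.mul (((hF i).differentiable one_ne_zero p.1).hasFDerivAt.comp p hasFDerivAt_fst)).fderiv
      have e2 := (d.mul ((c0.differentiable one_ne_zero p.1).hasFDerivAt.comp p hasFDerivAt_fst)).fderiv
      have l : ∀ (v : Fin k → ℝ) (t : ℝ), fderiv ℝ u (σ p) (v, t) =
          fderiv ℝ u (σ p) (v, 0) + t * fderiv ℝ u (σ p) (0, 1) := fun v t => by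
        rw [← smul_eq_mul, ← map_smul, ← map_add]; simp
      have f1 : ∀ i, fderiv ℝ (fun p => u (σ p) ^ 2 * F i p.1) p (Pi.single i 1, 0) =
          u (σ p) ^ 2 * fderiv ℝ (F i) p.1 (Pi.single i 1) + 2 * u (σ p) * (F i p.1 * fderiv ℝ u (σ p) (Pi.single i 1, 0))
            + 2 * u (σ p) * fderiv ℝ u (σ p) (0, 1) * (fderiv ℝ h p.1 (Pi.single i 1) * F i p.1) := fun i => by
        erw [e1 i]; simp [l _ (fderiv ℝ h p.1 _)]; simp only [σ, Homeomorph.homeomorph_mk_coe, Equiv.coe_fn_mk]; ring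
      have f2 : fderiv ℝ (fun p => u (σ p) ^ 2 * -(a + ∑ i, fderiv ℝ h p.1 (Pi.single i 1) * F i p.1)) p (0, 1) =
          -(a + ∑ i, fderiv ℝ h p.1 (Pi.single i 1) * F i p.1) * (2 * u (σ p) * fderiv ℝ u (σ p) (0, 1)) := by
        erw [e2]; simp
      have s := Finset.sum_nonneg fun i (_ : i ∈ Finset.univ) =>
        sq_nonneg (fderiv ℝ u (σ p) (Pi.single i 1, 0) - u (σ p) * F i p.1)
      simp only [sub_sq, mul_pow, Finset.sum_add_distrib, Finset.sum_sub_distrib, ← Finset.mul_sum] at s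
      simp only [Pi.add_apply, f1, f2, gradSq', Finset.sum_add_distrib, ← Finset.mul_sum]
      have e : ∑ i, 2 * fderiv ℝ u (σ p) (Pi.single i 1, 0) * (u (σ p) * F i p.1) =
          2 * u (σ p) * ∑ i, F i p.1 * fderiv ℝ u (σ p) (Pi.single i 1, 0) := by
        rw [Finset.mul_sum]; exact Finset.sum_congr rfl fun _ _ => by ring
      nlinarith [mul_le_mul_of_nonneg_left (h1 p.1) (sq_nonneg (u (σ p))),
        sq_nonneg (fderiv ℝ u (σ p) (0, 1) + a * u (σ p))]
  simp only [Pi.add_apply] at D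
  rw [integral_add (integrable_finsetSum _ fun i _ => intD (c1 i) (v3 _) _).integrableOn
    (intD c2 (v3 _) _).integrableOn, integral_finsetSum _ fun i _ => (intD (c1 i) (v3 _) _).integrableOn,
    integral_add ig.integrableOn (iu.const_mul _).integrableOn, integral_const_mul, B] at D
  simp only [A, Finset.sum_const_zero] at D
  rw [integral_const_mul, integral_neg'] at C
  rw [q, tr, tr]
  simp only [σ, Homeomorph.homeomorph_mk_coe, Equiv.coe_fn_mk, zero_add] at C D ⊢
  linarith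

theorem result (k : ℕ) (hk : 3 ≤ k) (α : ℝ) (hα : α < 0) : ∃ h : (Fin k → ℝ) → ℝ,
    ContDiff ℝ ∞ h ∧ HasCompactSupport h ∧ h ≠ 0 ∧ ∀ u : (Fin k → ℝ) × ℝ → ℝ,
      ContDiff ℝ 1 u → HasCompactSupport u → -α ^ 2 * ∫ p in Om h, u p ^ 2 ≤ q α h u := by
  obtain ⟨S, hS⟩ : ∃ S : (Fin k → ℝ) → ℝ, S = fun x => ∑ i, x i ^ 2 := ⟨_, rfl⟩
  have S0 : ∀ x, 0 ≤ S x := fun x => by rw [hS]; positivity
  have Sc : ContDiff ℝ ∞ S := by rw [hS]; fun_prop
  have hs : ∀ x : Fin k → ℝ, ∃ L : (Fin k → ℝ) →L[ℝ] ℝ, HasFDerivAt S L x ∧ ∀ i, L (Pi.single i 1) = 2 * x i :=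
    fun x => ⟨_, hS ▸ HasFDerivAt.fun_sum fun i _ => (hasFDerivAt_apply (𝕜 := ℝ) i x).pow 2,
      fun i => by simp [Pi.single_apply]⟩
  have gc := expNegInvGlue.contDiff (n := ⊤)
  obtain ⟨M, hM⟩ := isCompact_Icc.exists_bound_of_continuousOn (s := Icc (0 : ℝ) 1)
    (gc.continuous_deriv (by simp)).continuousOn
  have M0 : 0 ≤ M := (norm_nonneg _).trans (hM 0 (by simp))
  obtain ⟨ε, e0, e1⟩ : ∃ ε : ℝ, 0 < ε ∧ -α * ε * (2 * M + 1) = 1 :=
    ⟨1 / (-α * (2 * M + 1)), by have := neg_pos.2 hα; positivity, by have := hα.ne; field_simp⟩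
  have hc : ContDiff ℝ ∞ fun x => ε * expNegInvGlue (1 - S x) := contDiff_const.mul (gc.comp (contDiff_const.sub Sc))
  refine ⟨_, hc, .intro (isCompact_closedBall 0 1) fun x hx => mul_eq_zero_of_right _
    (expNegInvGlue.zero_of_nonpos (not_lt.1 fun hh => hx ?_)), fun e => ?_, fun u u1 u2 => ?_⟩
  · refine mem_closedBall_zero_iff.2 ((pi_norm_le_iff_of_nonneg one_pos.le).2 fun i => ?_)
    exact (sq_le_one_iff_abs_le_one _).1 ((Finset.single_le_sum (f := fun i => x i ^ 2)
      (fun _ _ => sq_nonneg _) (Finset.mem_univ i)).trans (by rw [hS] at hh; linarith))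
  · simpa [hS, e0.ne', (expNegInvGlue.pos_of_pos one_pos).ne'] using congrFun e 0
  have := main (a := -α) (F := fun i x => -x i * (1 + S x)⁻¹) (hc.of_le (by norm_cast))
    (fun i => (contDiff_apply ℝ ℝ i).neg.mul ((contDiff_const.add (Sc.of_le (by simp))).inv
      fun x => by have := S0 x; positivity)) (fun x => ?_) (fun x => ?_) u1 u2
  · simpa using this
  · obtain ⟨L, l1, l2⟩ := hs x
    have s0 := S0 x
    have : ∀ i, fderiv ℝ (fun x => -x i * (1 + S x)⁻¹) x (Pi.single i 1) =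
        2 * ((1 + S x) ^ 2)⁻¹ * x i ^ 2 - (1 + S x)⁻¹ := fun i => by
      erw [((hasFDerivAt_apply (𝕜 := ℝ) i x).neg.mul ((hasDerivAt_inv (by positivity)).comp_hasFDerivAt x
        (l1.const_add 1))).fderiv]
      simp [l2]; ring
    have k3 : (3 : ℝ) ≤ k := by exact_mod_cast hk
    simp only [this, mul_pow, neg_sq, Finset.sum_sub_distrib, ← Finset.mul_sum, ← Finset.sum_mul,
      show ∑ i, x i ^ 2 = S x by rw [hS], Finset.sum_const, Finset.card_univ, Fintype.card_fin, nsmul_eq_mul]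
    rw [← sub_nonneg]
    convert (by have := sub_nonneg.2 k3; positivity : 0 ≤ (3 + (k - 3) * (1 + S x)) / (1 + S x) ^ 2) using 1
    field_simp; ring
  · obtain ⟨L, l1, l2⟩ := hs x
    have s0 := S0 x
    obtain ⟨d, hd⟩ : ∃ d, d = deriv expNegInvGlue (1 - S x) := ⟨_, rfl⟩
    have d0 : 0 ≤ d := hd ▸ expNegInvGlue.monotone.deriv_nonneg
    have d1 : d * (1 + S x) ≤ 2 * M + 1 := by
      rcases le_or_gt (S x) 1 with c | c
      · have := (le_abs_self _).trans (hM (1 - S x) ⟨by linarith, by linarith⟩)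
        nlinarith
      · rw [hd, EventuallyEq.deriv_eq (f := fun _ => 0) ((eventually_lt_nhds (sub_neg.2 c)).mono fun t ht =>
          expNegInvGlue.zero_of_nonpos ht.le)]
        simp; positivity
    have : ∀ i, fderiv ℝ (fun x => ε * expNegInvGlue (1 - S x)) x (Pi.single i 1) = -(2 * ε * d) * x i := fun i => by
      erw [(((gc.differentiable (by simp) _).hasDerivAt.comp_hasFDerivAt x (l1.const_sub 1)).const_mul ε).fderiv]
      simp [l2, hd]; ring
    have e : ∀ i, -(2 * ε * d) * x i * (-x i * (1 + S x)⁻¹) = 2 * ε * d * (1 + S x)⁻¹ * x i ^ 2 := fun i => by ring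
    simp only [gradSq, this, e, mul_pow, ← Finset.mul_sum, show ∑ i, x i ^ 2 = S x by rw [hS]]
    have r : √(1 + (-(2 * ε * d)) ^ 2 * S x) ≤ 1 + 2 * ε ^ 2 * d ^ 2 * S x :=
      Real.sqrt_le_iff.2 ⟨by positivity, by nlinarith [sq_nonneg (2 * ε ^ 2 * d ^ 2 * S x)]⟩
    have a0 := neg_pos.2 hα
    have : -α * ε * d ≤ (1 + S x)⁻¹ := by
      rw [← one_div, le_div_iff₀ (by positivity), mul_assoc]
      exact (mul_le_mul_of_nonneg_left d1 (by positivity)).trans_eq e1
    nlinarith [mul_le_mul_of_nonneg_left r a0.le, mul_le_mul_of_nonneg_left this (by positivity : 0 ≤ 2 * ε * d * S x)]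

end Pool.Agent.Results.MP_ce9a4f_an.No
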